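import Pool.Agent.Helper49.TP.StF

set_option autoImplicit false

namespace Pool.Agent.Helper38.TP

open Finset Pool.Agent.Helper49.TP Pool.Agent.Helper93.IA

theorem hFTP : StFTP := by
  intro n P h hP
  refine ⟨fun r c => ?_, fun c s => ?_, fun s r => ?_⟩
  · simp only [pA, mem_filter, mem_univ, true_and]
    constructor
    · intro h1
      by_contra h2
      obtain ⟨s, hs⟩ := Option.ne_none_iff_exists'.mp h2
      have h3 := (hP r c s).mpr hs
      rw [h1] at h3
      exact absurd h3 (by simp)
    · intro h1
      by_contra h2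
      obtain ⟨u, hu⟩ := Option.ne_none_iff_exists'.mp h2
      obtain ⟨s, rfl⟩ := h.2.2.surjective u
      have h3 := (hP r c s).mp hu
      rw [h1] at h3
      exact absurd h3 (by simp)
  · simp only [pB, mem_filter, mem_univ, true_and]
    constructor
    · intro h1 r h2
      exact h1 (h.1 r) ((hP r c s).mpr h2)
    · intro h1 r' h2
      obtain ⟨r, rfl⟩ := h.1.surjective r'
      exact h1 r ((hP r c s).mp h2)
  · simp only [pC, mem_filter, mem_univ, true_and]
    constructor
    · intro h1 c h2
      exact h1 (h.2.1 c) ((hP r c s).mpr h2)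
    · intro h1 c' h2
      obtain ⟨c, rfl⟩ := h.2.1.surjective c'
      exact h1 c ((hP r c s).mp h2)

end Pool.Agent.Helper38.TP
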